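import Pool.Agent.H718R2.D3k
import Pool.Agent.H718R2.D3i


open Pool.Agent.H718R2

namespace Pool.Agent.Y640.CL

/-- allowed perturbations: `u` of class `C^{1,1}` -/
structure PertL (θ : ℝ) (u : E → E) : Prop where
  diff : Differentiable ℝ u
  b0 : ∀ (p : E) (m : ℕ), (m : ℝ) - 1 ≤ |p.2.1| → ‖u p‖ ≤ θ ^ (12 * (m + 1))
  b1 : ∀ (p : E) (m : ℕ), (m : ℝ) - 1 ≤ |p.2.1| → ‖fderiv ℝ u p‖ ≤ θ ^ (12 * (m + 1))
  b2 : ∀ (S : Set E) (m : ℕ), Convex ℝ S → (∀ p ∈ S, (m : ℝ) - 1 ≤ |p.2.1|) →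
    ∀ p ∈ S, ∀ p' ∈ S, ‖fderiv ℝ u p - fderiv ℝ u p'‖ ≤ θ ^ (12 * (m + 1)) * ‖p - p'‖

structure Ctx (κ θ : ℝ) (ω : E → ℝ) (f u : E → E) : Prop where
  hκ : 0 < κ
  hκ' : κ ≤ 1 / 10 ^ 12
  hθ : θ = κ ^ 24
  hω : Wind κ θ ω
  hf : ContDiff ℝ 2 f
  hS : Sys θ ω f
  hu : PertL θ u

theorem Ctx.θp {κ θ : ℝ} {ω : E → ℝ} {f u : E → E} (c : Ctx κ θ ω f u) : 0 < θ :=
  (θ_small c.hκ c.hκ' c.hθ).1

theorem Ctx.θs {κ θ : ℝ} {ω : E → ℝ} {f u : E → E} (c : Ctx κ θ ω f u) : θ ≤ 1 / 10 ^ 24 :=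
  (θ_small c.hκ c.hκ' c.hθ).2

section

variable {κ θ : ℝ} {ω : E → ℝ} {f u : E → E}

theorem Gt.up (c : Ctx κ θ ω f u) {m : ℕ} {z p : E} (h : Gt θ ω f m 7 z p) : Up f p := by
  obtain ⟨hp, hz, hx, b, k, hb, hk, e⟩ := h
  have hr := r_pos c.θp m
  have hr1 := r_le c.θp c.θs m
  have hs := c.θs
  unfold Up
  rw [e, hp]
  have hz' := abs_le.1 hz
  have hb' := abs_le.1 hb
  simp only [tgt, show ¬ (7 < 7) by omega, if_false, U_s, smul_s, U_ξ, smul_ξ, add_s, add_ξ, R_s, R_ξ, q7,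
    show sg 7 = 1 from rfl, show sg (7 + 1) = 1 from rfl, uy_succ]
  push_cast
  refine ⟨?_, ?_, ?_⟩ <;> nlinarith

theorem tri2 (c : Ctx κ θ ω f u) (p : E) : Kill f p ∨ IsDown θ ω f p ∨ Up f p := by
  rcases c.hS.tri p with h | ⟨m, l, hl, z, hp, hz, hx, h⟩ | h
  · exact Or.inl h
  · rcases Nat.lt_or_ge l 7 with h7 | h7
    · exact Or.inr (Or.inl ⟨m, l, by omega, z, hp, hz, hx, h⟩)
    · have : l = 7 := by omega
      subst this
      exact Or.inr (Or.inr (Gt.up c (z := z) ⟨hp, hz, hx, h⟩))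
  · exact Or.inr (Or.inr (NT.up h))

theorem err_small (c : Ctx κ θ ω f u) (m : ℕ) :
    θ ^ (12 * (m + 1)) ≤ 1 / (200 * (((m : ℝ) + 1) * (m + 4))) := by
  have h1 : θ ^ (12 * (m + 1)) ≤ (1 / 10 ^ 10) ^ (m + 1) := by
    rw [pow_mul]
    apply pow_le_pow_left₀ (by have := c.θp; positivity)
    exact (pow_small c.θp c.θs (by norm_num)).trans (by norm_num)
  have h2 := poly_exp m
  have h3 : (0:ℝ) < 200 * (((m : ℝ) + 1) * (m + 4)) := by positivity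
  rw [le_div_iff₀ h3]
  refine le_trans ?_ h2
  have h0 : (0:ℝ) ≤ m := Nat.cast_nonneg m
  calc θ ^ (12 * (m + 1)) * (200 * (((m : ℝ) + 1) * (m + 4)))
      ≤ (1 / 10 ^ 10) ^ (m + 1) * (200 * (((m : ℝ) + 1) * (m + 4))) := by gcongr
    _ = _ := by ring

theorem u_le (c : Ctx κ θ ω f u) (p : E) : ‖u p‖ ≤ θ ^ 12 := by
  have := c.hu.b0 p 0 (by simp; linarith [abs_nonneg p.2.1])
  simpa using this

theorem u_le' (c : Ctx κ θ ω f u) (p : E) : ‖u p‖ ≤ 1 / 10 ^ 24 :=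
  (u_le c p).trans (pow_small c.θp c.θs (by norm_num))

theorem V_up (c : Ctx κ θ ω f u) {p : E} (h : Up f p) : V p ≤ V (FF f u p) := by
  obtain ⟨h1, h2, h3⟩ := h
  set m := ⌊|p.2.1|⌋₊ + 1 with hm
  have hm1 : (m : ℝ) - 1 ≤ |p.2.1| := by
    rw [hm]; push_cast; linarith [Nat.floor_le (abs_nonneg p.2.1)]
  have hm2 : |p.2.1| ≤ m := by
    rw [hm]; push_cast; exact (Nat.lt_floor_add_one _).le
  have hu := c.hu.b0 p m hm1
  have he := err_small c m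
  have hu' := u_le' c p
  have hs := abs_le.1 (n2 (u p))
  have hx := abs_le.1 (n3 (u p))
  set e := ‖u p‖ with hee
  have e0 : 0 ≤ e := norm_nonneg _
  have a1 : (FF f u p).2.1 = (f p).2.1 + (u p).2.1 := rfl
  have a2 : (FF f u p).2.2 = (f p).2.2 + (u p).2.2 := rfl
  have b1 : p.2.1 + 1 / 2 ≤ (FF f u p).2.1 := by rw [a1]; norm_num at hu' ⊢; linarith [hs.1]
  have b2 : |(FF f u p).2.1| ≤ m + 3 := by
    rw [a1, abs_le]
    have := abs_le.1 hm2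
    norm_num at hu'
    constructor <;> linarith [hs.1, hs.2]
  have b3 : p.2.2 - e ≤ (FF f u p).2.2 := by rw [a2]; linarith [hx.1]
  have hi := hh_inc (show p.2.1 ≤ (FF f u p).2.1 by linarith)
  have h0 : (0:ℝ) ≤ m := Nat.cast_nonneg m
  have h4 : 1 / 2 / (((m : ℝ) + 1) * (m + 4)) ≤
      ((FF f u p).2.1 - p.2.1) / ((1 + |p.2.1|) * (1 + |(FF f u p).2.1|)) := by
    apply div_le_div₀ (by linarith) (by linarith) (by positivity)
    apply mul_le_mul (by linarith) (by linarith) (by positivity) (by positivity)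
  unfold V
  have h5 : 1 / (200 * (((m : ℝ) + 1) * (m + 4))) = 1 / 100 * (1 / 2 / (((m : ℝ) + 1) * (m + 4))) := by
    field_simp; norm_num
  rw [h5] at he
  nlinarith

theorem V_kill (c : Ctx κ θ ω f u) {p : E} (h : Kill f p) : V p + 29 / 10 ≤ V (FF f u p) := by
  unfold Kill at h
  have hu' := u_le' c p
  have hx := abs_le.1 (n3 (u p))
  have a2 : (FF f u p).2.2 = (f p).2.2 + (u p).2.2 := rfl
  have k1 := abs_le.1 (hh_bd p.2.1)
  have k2 := abs_le.1 (hh_bd (FF f u p).2.1)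
  unfold V
  norm_num at hu'
  rw [a2]
  linarith [hx.1, k1.1, k1.2, k2.1, k2.2]

theorem V_flight (c : Ctx κ θ ω f u) {p : E} {j : ℕ}
    (h : ∀ i, i < j → ¬ IsDown θ ω f ((FF f u)^[i] p)) : V p ≤ V ((FF f u)^[j] p) := by
  induction j with
  | zero => simp
  | succ j ih =>
    rw [Function.iterate_succ_apply']
    refine (ih (fun i hi => h i (by omega))).trans ?_
    rcases tri2 c ((FF f u)^[j] p) with h' | h' | h'
    · linarith [V_kill c h']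
    · exact absurd h' (h j (by omega))
    · exact V_up c h'

end

end Pool.Agent.Y640.CL
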