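import Pool.Agent.Y640.CL.D2


open Pool.Agent.H718R2

namespace Pool.Agent.Y640.CL

section

variable {κ θ : ℝ} {ω : E → ℝ} {f u : E → E}

theorem HH_succ' (c : Ctx κ θ ω f u) (k : ℕ)
    (sec : Small (θ ^ 10) (ecF θ (FF f u) k))
    (se : ∀ l, l ≤ 7 → Small (θ ^ 10) (eF θ (FF f u) ω k l))
    (hL : 8 ≤ LL κ k)
    (h : HH κ θ (FF f u) k) (h0 : ‖Ph θ (FF f u) k 0‖ ≤ 16 * κ ^ 11)
    (h1 : ‖fderiv ℝ (Ph θ (FF f u) k) 0‖ ≤ 24 * κ ^ 11) : HH κ θ (FF f u) (k + 1) := by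
  obtain ⟨C1, C2, C3, C4⟩ := modC c.hκ c.hκ' c.hθ hL c.hω h.ret h0 h1 sec
    (e := fun l => eF θ (FF f u) ω k l) se
  have hθ := c.θp
  have hκ := c.hκ
  set Ψ : E → E := fun ζ => Yc ω (Ph θ (FF f u) k) (ecF θ (FF f u) k)
    (fun l => eF θ (FF f u) ω k l) 8 ζ - ζ with hΨ
  have hΨd : Differentiable ℝ Ψ := C1.sub differentiable_id
  have hPh : Ph θ (FF f u) (k + 1) = fun ζ => θ⁻¹ • Ψ (θ • ζ) := by
    funext ζ
    exact Ph_succ (ω := ω) hθ (FF f u) k ζ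
  have hder : ∀ ζ, HasFDerivAt (Ph θ (FF f u) (k + 1)) (fderiv ℝ Ψ (θ • ζ)) ζ := by
    intro ζ
    rw [hPh]
    have a1 : HasFDerivAt (fun ζ : E => θ • ζ) (θ • ContinuousLinearMap.id ℝ E) ζ :=
      (hasFDerivAt_id ζ).const_smul θ
    have a2 : HasFDerivAt Ψ (fderiv ℝ Ψ (θ • ζ)) (θ • ζ) := (hΨd _).hasFDerivAt
    have a3 := (a2.comp ζ a1).const_smul θ⁻¹
    refine a3.congr_fderiv ?_
    ext v
    all_goals simp [hθ.ne']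
  have hfd : ∀ ζ, fderiv ℝ (Ph θ (FF f u) (k + 1)) ζ = fderiv ℝ Ψ (θ • ζ) := fun ζ => (hder ζ).fderiv
  have h24 : θ = κ ^ 24 := c.hθ
  have hκ10 : 7 * θ ≤ κ ^ 10 := by
    rw [h24, show κ ^ 24 = κ ^ 10 * κ ^ 14 by ring]
    have h14 : κ ^ 14 ≤ 1 / 8 := by
      calc κ ^ 14 ≤ (1 / 10 ^ 12) ^ 14 := pow_le_pow_left₀ hκ.le c.hκ' 14
        _ ≤ 1 / 8 := by norm_num
    have : 0 < κ ^ 10 := pow_pos hκ 10
    nlinarith
  have hbox : ∀ ζ ∈ Box (LL κ (k + 1)), ‖θ • ζ‖ ≤ κ ^ 10 := by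
    rintro ζ ⟨b1, b2, b3⟩
    apply nle
    · rw [smul_x, abs_mul, abs_of_pos hθ]; nlinarith
    · rw [smul_s, abs_mul, abs_of_pos hθ]; nlinarith
    · rw [smul_ξ, abs_mul, abs_of_pos hθ]
      have e : LL κ (k + 1) = 1 / κ ^ 14 := rfl
      rw [e] at b3
      calc θ * |ζ.2.2| ≤ θ * (1 / κ ^ 14) := mul_le_mul_of_nonneg_left b3 hθ.le
        _ = κ ^ 10 := by rw [h24]; field_simp
  refine ⟨⟨fun ζ => (hder ζ).differentiableAt, ?_, ?_⟩, ?_⟩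
  · intro p hp
    rw [hfd]
    exact C2 _ (hbox p hp)
  · intro p hp p' hp'
    rw [hfd, hfd]
    refine (C3 _ _ (hbox p hp) (hbox p' hp')).trans ?_
    rw [← smul_sub, norm_smul, Real.norm_of_nonneg hθ.le, mul_assoc]
  · intro ζ hζ
    have h4 := C4 (θ • ζ) (hbox ζ hζ) (by
      rw [smul_x, abs_mul, abs_of_pos hθ, mul_comm 7]; exact mul_le_mul_of_nonneg_left hζ.1 hθ.le) (by
      rw [smul_s, abs_mul, abs_of_pos hθ, mul_comm 7]; exact mul_le_mul_of_nonneg_left hζ.2.1 hθ.le)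
    rw [hPh]
    change |θ⁻¹ * ((Yc ω (Ph θ (FF f u) k) (ecF θ (FF f u) k)
      (fun l => eF θ (FF f u) ω k l) 8 (θ • ζ)).2.1 - (θ • ζ).2.1)| ≤ 1 / 2000
    rw [abs_mul, abs_inv, abs_of_pos hθ, inv_mul_le_iff₀ hθ]
    linarith

end

end Pool.Agent.Y640.CL
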