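import Pool.Agent.Y640.CL.D2
import Pool.Agent.H718R2.D4

/-!
# Forward invariant sets with bounded coordinates: bounds of `ξ`, no free flight above, alive gates
-/


open Pool.Agent.H718R2

namespace Pool.Agent.Y640.CL

/-- a forward invariant set on which `s` is bounded above -/
structure Inv0 (F : E → E) (O : Set E) : Prop where
  inv : ∀ p ∈ O, ∀ j, F^[j] p ∈ O
  sb : ∃ S : ℝ, ∀ p ∈ O, p.2.1 ≤ S

theorem Inv0.inv1 {F : E → E} {O : Set E} (h : Inv0 F O) {p : E} (hp : p ∈ O) : F p ∈ O :=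
  h.inv p hp 1

/-- a forward invariant set with small `ξ` on which `s` is bounded above -/
structure Orb2 (F : E → E) (O : Set E) : Prop where
  inv : ∀ p ∈ O, ∀ j, F^[j] p ∈ O
  ξb : ∀ p ∈ O, |p.2.2| ≤ 1 / 10
  sb : ∃ S : ℝ, ∀ p ∈ O, p.2.1 ≤ S

theorem Orb2.inv1 {F : E → E} {O : Set E} (h : Orb2 F O) {p : E} (hp : p ∈ O) : F p ∈ O :=
  h.inv p hp 1

theorem Orb2.inv0 {F : E → E} {O : Set E} (h : Orb2 F O) : Inv0 F O := ⟨h.inv, h.sb⟩

section
variable {κ θ : ℝ} {ω : E → ℝ} {f u : E → E} {O : Set E}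

theorem not_up_forever (c : Ctx κ θ ω f u) (hO : Inv0 (FF f u) O) {p : E} (hp : p ∈ O)
    (h : ∀ i, Up f ((FF f u)^[i] p)) : False := by
  have key : ∀ i : ℕ, p.2.1 + i / 2 ≤ ((FF f u)^[i] p).2.1 := by
    intro i
    induction i with
    | zero => simp
    | succ i ih =>
      rw [Function.iterate_succ_apply']
      obtain ⟨h1, _, _⟩ := h i
      have hu := u_le' c ((FF f u)^[i] p)
      have h2 := abs_le.1 ((n2 (u ((FF f u)^[i] p))).trans hu)
      have h3 : (FF f u ((FF f u)^[i] p)).2.1 = (f ((FF f u)^[i] p)).2.1 + (u ((FF f u)^[i] p)).2.1 := rfl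
      rw [h3]
      push_cast
      norm_num at h2
      linarith [h2.1]
  obtain ⟨S, hS⟩ := hO.sb
  obtain ⟨n, hn⟩ := exists_nat_gt (2 * (S - p.2.1))
  have h1 := key n
  have h2 := hS _ (hO.inv p hp n)
  linarith

/-- from a point with `ξ` near the maximum, a down gate comes -/
theorem next_down (c : Ctx κ θ ω f u) (hO : Inv0 (FF f u) O) {pm p : E}
    (hm : ∀ p ∈ O, p.2.2 ≤ pm.2.2) (hp : p ∈ O) (h : pm.2.2 - 2 ≤ p.2.2) :
    ∃ j, IsDown θ ω f ((FF f u)^[j] p) ∧ V p ≤ V ((FF f u)^[j] p) := by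
  by_contra hcon
  push Not at hcon
  have hnd : ∀ j, ¬ IsDown θ ω f ((FF f u)^[j] p) := by
    intro j
    induction j using Nat.strong_induction_on with
    | _ j ih =>
      intro hd
      have h1 := V_flight c (p := p) (j := j) ih
      exact absurd h1 (not_le.2 (hcon j hd))
  apply not_up_forever c hO hp
  intro i
  rcases tri2 c ((FF f u)^[i] p) with h' | h' | h'
  · exfalso
    have h1 := V_flight c (p := p) (j := i) (fun k _ => hnd k)
    have h2 := V_kill c h'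
    have h3 := V_le p
    have h4 := V_le (FF f u ((FF f u)^[i] p))
    have h5 := hm _ (hO.inv1 (hO.inv p hp i))
    rw [abs_le] at h3 h4
    linarith [h3.1, h3.2, h4.1, h4.2]
  · exact absurd h' (hnd i)
  · exact h'

/-- a killed point raises `ξ` -/
theorem kill_raise (c : Ctx κ θ ω f u) {p : E} (h : Kill f p) : p.2.2 + 29 / 10 ≤ (FF f u p).2.2 := by
  have hu := u_le' c p
  have h2 := abs_le.1 ((n3 (u p)).trans hu)
  have h3 : (FF f u p).2.2 = (f p).2.2 + (u p).2.2 := rfl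
  unfold Kill at h
  rw [h3]; norm_num at h2; linarith [h2.1]

/-- landing of a down gate if no kill can follow -/
theorem landing_good (c : Ctx κ θ ω f u) (hO : Inv0 (FF f u) O) {pm p : E}
    (hm : ∀ p ∈ O, p.2.2 ≤ pm.2.2) (hp : p ∈ O) (hd : IsDown θ ω f p)
    (h : pm.2.2 - 2 ≤ p.2.2) : |(FF f u p).2.2| ≤ 1 / 1000 := by
  obtain ⟨m, l, hl, z, hg⟩ := hd
  obtain ⟨⟨j, l', w, hl', hj, hw, hξ⟩, hdrop⟩ := landing c hl hg
  have hs := c.θs
  have hθ := c.θp
  rw [hj] at hξ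
  have hξ' := abs_le.1 hξ
  have hin : U θ 0 (r θ 0 • (q l' + R (sg l') w)) ∈ O := by rw [← hj]; exact hO.inv p hp _
  rcases c.hS.rigid 0 l' hl' w hw with hk | ⟨hw2, _⟩
  · exfalso
    have h1 := kill_raise c (p := U θ 0 (r θ 0 • (q l' + R (sg l') w))) hk
    have h2 := hm _ (hO.inv1 hin)
    have k1 : (1:ℝ) / 10 ^ 22 ≤ 1 / 1000 := by norm_num
    have k2 : (1:ℝ) / 10 ^ 20 ≤ 1 / 1000 := by norm_num
    linarith [hξ'.1, hξ'.2]
  · have e : (U θ 0 (r θ 0 • (q l' + R (sg l') w))).2.2 = θ * ((q l').2.2 + w.2.2) := by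
      rw [U_ξ, smul_ξ, add_ξ, R_ξ, r_zero]
    rw [e] at hξ'
    obtain ⟨Q3, Q3'⟩ := q_bd3 l'
    have hw2' := abs_lt.1 hw2
    have hb := abs_le.1 (mul_bd hθ.le (a := (q l').2.2 + w.2.2) (c := 3) (by
      rw [abs_le]; constructor <;> linarith [hw2'.1, hw2'.2]))
    norm_num at hξ' hs
    rw [abs_le]
    constructor <;> linarith [hb.1, hb.2, hξ'.1, hξ'.2]

theorem max_bd (c : Ctx κ θ ω f u) (hO : Inv0 (FF f u) O) {pm : E} (hpm : pm ∈ O)
    (hm : ∀ p ∈ O, p.2.2 ≤ pm.2.2) :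
    pm.2.2 ≤ 1 / 10 ∧ ∃ b ∈ O, IsDown θ ω f b ∧ |(FF f u b).2.2| ≤ 1 / 1000 := by
  obtain ⟨j, hd, hV⟩ := next_down c hO hm hpm (by linarith)
  have h1 := abs_le.1 (V_le pm)
  have h2 := abs_le.1 (V_le ((FF f u)^[j] pm))
  have hin := hO.inv pm hpm j
  have hg := landing_good c hO hm hin hd (by linarith [h1.1, h1.2, h2.1, h2.2])
  refine ⟨?_, _, hin, hd, hg⟩
  obtain ⟨m, l, hl, z, hgt⟩ := hd
  obtain ⟨_, hdrop⟩ := landing c hl hgt
  have hg' := abs_le.1 hg
  norm_num at hdrop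
  linarith [h1.1, h1.2, h2.1, h2.2, hg'.2]

/-- passage to a forward orbit with small `ξ` -/
theorem exists_orb2 (c : Ctx κ θ ω f u) (hO : Inv0 (FF f u) O) {pm : E} (hpm : pm ∈ O)
    (hm : ∀ p ∈ O, p.2.2 ≤ pm.2.2) :
    ∃ O₂ : Set E, Orb2 (FF f u) O₂ ∧ ∃ p ∈ O₂, IsDown θ ω f p := by
  obtain ⟨hmax, b, hb, hbd, hb1⟩ := max_bd c hO hpm hm
  have key : ∀ j : ℕ, ∀ b ∈ O, |b.2.2| ≤ 1 / 1000 → -(1 / 10) ≤ ((FF f u)^[j] b).2.2 := by
    intro j
    induction j using Nat.strong_induction_on with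
    | _ j ih =>
      intro b hb hb1
      by_cases hc : ∀ i, i < j → ¬ IsDown θ ω f ((FF f u)^[i] b)
      · have h1 := V_flight c hc
        have h2 := abs_le.1 (V_le b)
        have h3 := abs_le.1 (V_le ((FF f u)^[j] b))
        have hb1' := abs_le.1 hb1
        linarith [h2.1, h2.2, h3.1, h3.2, hb1'.1]
      · push Not at hc
        obtain ⟨i, hi, hd⟩ := hc
        have h1 := ih i hi b hb hb1
        have hin := hO.inv b hb i
        have h2 := landing_good c hO hm hin hd (by linarith)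
        have h3 := ih (j - (i + 1)) (by omega) _ (hO.inv1 hin) h2
        rw [← Function.iterate_succ_apply' (FF f u) i b, ← Function.iterate_add_apply] at h3
        rwa [show j - (i + 1) + (i + 1) = j by omega] at h3
  have hFb := hO.inv1 hb
  have hb1' := abs_le.1 hb1
  obtain ⟨i, hd, -⟩ := next_down c hO hm hFb (by linarith)
  obtain ⟨S, hS⟩ := hO.sb
  refine ⟨Set.range (fun j => (FF f u)^[j] (FF f u b)), ⟨?_, ?_, S, ?_⟩, _, ⟨i, rfl⟩, hd⟩
  · rintro _ ⟨i, rfl⟩ j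
    exact ⟨j + i, by simp only [Function.iterate_add_apply]⟩
  · rintro _ ⟨j, rfl⟩
    exact abs_le.2 ⟨key j _ hFb hb1, (hm _ (hO.inv _ hFb j)).trans hmax⟩
  · rintro _ ⟨j, rfl⟩
    exact hS _ (hO.inv _ hFb j)

theorem ξ_bd (hO : Orb2 (FF f u) O) {p : E} (hp : p ∈ O) : |p.2.2| ≤ 1 / 10 := hO.ξb p hp

theorem no_kill (c : Ctx κ θ ω f u) (hO : Orb2 (FF f u) O) {p : E} (hp : p ∈ O) : ¬ Kill f p := by
  intro h
  have h1 := kill_raise c h
  have h2 := abs_le.1 (ξ_bd hO hp)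
  have h3 := abs_le.1 (ξ_bd hO (hO.inv1 hp))
  linarith [h2.1, h3.2]

/-- heights of gates -/
theorem gate_height (c : Ctx κ θ ω f u) (m l : ℕ) {z : E} (hz : |z.2.1| ≤ 1 / 100) :
    |(U θ m (r θ m • (q l + R (sg l) z))).2.1 - (m + 1)| ≤ 1 / 100 := by
  rw [U_s, smul_s, add_s, R_s]
  obtain ⟨A1, A2⟩ := q_bd2 l
  have hz'' := abs_le.1 (sg_bd l hz)
  have h1 := uy_nonneg c.θp m
  have h1' := uy_le' c.θp c.θs m
  have hr := r_pos c.θp m
  have hr1 := r_le c.θp c.θs m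
  have hs := c.θs
  have hb : |r θ m * ((q l).2.1 + sg l * z.2.1)| ≤ r θ m * 5 :=
    mul_bd hr.le (by rw [abs_le]; constructor <;> linarith)
  have hb' := abs_le.1 hb
  norm_num at hs
  rw [abs_le]; constructor <;> linarith

/-- a point in free flight (type `NT`) above height `1/2` is followed by one -/
theorem NT_next (c : Ctx κ θ ω f u) (hO : Orb2 (FF f u) O) {p : E} (hp : p ∈ O) (hN : NT θ f p)
    (hs : 1 / 2 ≤ p.2.1) : NT θ f (FF f u p) ∧ 1 / 2 ≤ (FF f u p).2.1 := by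
  obtain ⟨hband, k, hk, e⟩ := hN
  have hu := u_le' c p
  have h2 := abs_le.1 ((n2 (u p)).trans hu)
  have h3 : (FF f u p).2.1 = p.2.1 + 1 + (u p).2.1 := by
    change (f p).2.1 + (u p).2.1 = _
    rw [e]
  norm_num at h2
  refine ⟨?_, by rw [h3]; linarith [h2.1]⟩
  rcases c.hS.tri (FF f u p) with h | ⟨m, l, hl, z, hz, hz1, _⟩ | h
  · exact absurd h (no_kill c hO (hO.inv1 hp))
  · exfalso
    have hh := abs_le.1 (gate_height c m l hz1)
    rw [← hz, h3] at hh
    -- m ≥ 1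
    have hm : 1 ≤ m := by
      by_contra hcon
      have : m = 0 := by omega
      subst this
      norm_num at hh
      linarith [hh.2]
    obtain ⟨i, rfl⟩ : ∃ i, m = i + 1 := ⟨m - 1, by omega⟩
    have hb := hband i 7 le_rfl
    have hlev : (i : ℝ) - 1 ≤ |p.2.1| := by
      push_cast at hh
      rw [le_abs]; left; linarith [hh.1, h2.2]
    have hlev2 := (n2 (u p)).trans ((c.hu.b0 p i hlev).trans (er_r c.θp c.θs i))
    have t11 := th11 c
    have hri := r_pos c.θp i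
    have hrs : r θ (i + 1) = θ * r θ i := r_succ i
    have hs' := c.θs
    have e2 : (FF f u p).2.1 = r θ (i + 1) * ((q l).2.1 + sg l * z.2.1) + ((i + 1 : ℕ) + 1) + uy θ (i + 1) := by
      rw [hz]; rfl
    have e3 : (U θ i (r θ i • q 7)).2.1 = r θ i * 4 + (i + 1) + uy θ i := rfl
    rw [e3] at hb
    rw [h3, uy_succ] at e2
    push_cast at e2
    have hlev3 : |(u p).2.1| ≤ r θ i / 1000 := by
      have : θ ^ 11 * r θ i ≤ 1 / 1000 * r θ i := mul_le_mul_of_nonneg_right (by linarith) hri.le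
      linarith
    have hlev4 := abs_le.1 hlev3
    obtain ⟨A1, A2⟩ := q_bd2 l
    have hz'' := abs_le.1 (sg_bd l hz1)
    have hb' := abs_le.1 (mul_bd (r_pos c.θp (i + 1)).le (a := (q l).2.1 + sg l * z.2.1) (c := 5) (by
      rw [abs_le]; constructor <;> linarith))
    have hr5 : r θ (i + 1) * 5 ≤ r θ i / 1000 := by
      rw [hrs]; nlinarith
    have hfin : |p.2.1 - (r θ i * 4 + (↑i + 1) + uy θ i)| ≤ r θ i / 500 := by
      rw [abs_le]; constructor <;> linarith [hb'.1, hb'.2, hlev4.1, hlev4.2]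
    linarith
  · exact h

theorem no_NT (c : Ctx κ θ ω f u) (hO : Orb2 (FF f u) O) {p : E} (hp : p ∈ O)
    (hs : 1 / 2 ≤ p.2.1) : ¬ NT θ f p := by
  intro hN
  have key : ∀ i, NT θ f ((FF f u)^[i] p) ∧ 1 / 2 ≤ ((FF f u)^[i] p).2.1 := by
    intro i
    induction i with
    | zero => exact ⟨hN, hs⟩
    | succ i ih =>
      rw [Function.iterate_succ_apply']
      exact NT_next c hO (hO.inv p hp i) ih.1 ih.2
  exact not_up_forever c hO.inv0 hp (fun i => NT.up (key i).1)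

/-- every orbit point near height `m+1` is an alive gate point of level `m` -/
theorem AU (c : Ctx κ θ ω f u) (hO : Orb2 (FF f u) O) {m : ℕ} {w : E} (hp : U θ m w ∈ O)
    (hw : |w.2.1| ≤ 3 / 8) : ∃ l ≤ 7, ∃ z, Gt θ ω f m l z (U θ m w) := by
  have hs' := c.θs
  have h1 := uy_nonneg c.θp m
  have h1' := uy_le' c.θp c.θs m
  have hw' := abs_le.1 hw
  have hm0 : (0:ℝ) ≤ m := Nat.cast_nonneg m
  have hs : 1 / 2 ≤ (U θ m w).2.1 := by rw [U_s]; linarith
  rcases c.hS.tri (U θ m w) with h | ⟨m', l, hl, z, hz, hz1, hx, h⟩ | h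
  · exact absurd h (no_kill c hO hp)
  · have hh := abs_le.1 (gate_height c m' l hz1)
    rw [← hz, U_s] at hh
    norm_num at hs'
    have hmm : m' = m := by
      have a1 : (m' : ℝ) < m + 1 := by linarith [hh.1]
      have a2 : (m : ℝ) < m' + 1 := by linarith [hh.2]
      have a1' : m' < m + 1 := by exact_mod_cast a1
      have a2' : m < m' + 1 := by exact_mod_cast a2
      omega
    subst hmm
    exact ⟨l, hl, z, hz, hz1, hx, h⟩
  · exact absurd h (no_NT c hO hp hs)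

end

end Pool.Agent.Y640.CL
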