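import Pool.Agent.H718R2.G0

/-!
# Closing lemma, compact version: definition
-/

open scoped Manifold ContDiff Topology
open Pool.Agent.H718R2.G

namespace Pool.Agent.Y640.CL

/-- The property `G.NonClosing n` with compact sets instead of finite sets: a diffeomorphism `F` of `ℝⁿ`
which is the identity on `{v 0 ≤ 1}`, with a recurrent point `a` and a neighbourhood `N` of `a`, such
that for every map `G` that is `C²`-close to `F` on `{1/2 < v 0}`, no compact set which is closed under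
`G` as long as the first coordinate is `≥ 1` meets `N`. -/
def NonClosingC (n : ℕ) [NeZero n] : Prop :=
  ∃ (F : V n ≃ₜ V n) (a : V n) (N : Set (V n)) (ε : V n → ℝ), N ∈ 𝓝 a ∧
    ContDiff ℝ ∞ F ∧ ContDiff ℝ ∞ F.symm ∧ (∀ v : V n, v 0 ≤ 1 → F v = v) ∧
    1 ≤ a 0 ∧ (∀ δ : ℝ, 0 < δ → ∃ k : ℕ, 1 ≤ k ∧ ‖F^[k] a - a‖ < δ) ∧ Continuous ε ∧ (∀ v, 0 < ε v) ∧
    ∀ G : V n → V n, ContDiffOn ℝ 2 G {v : V n | 1 / 2 < v 0} →
      (∀ v : V n, 1 / 2 < v 0 → ∀ i : ℕ, i ≤ 2 →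
        ‖iteratedFDeriv ℝ i G v - iteratedFDeriv ℝ i (F : V n → V n) v‖ < ε v) →
      ∀ O : Set (V n), IsCompact O → (O ∩ N).Nonempty → ¬ (∀ v ∈ O, 1 ≤ v 0 → G v ∈ O)

end Pool.Agent.Y640.CL
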