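import Pool.Agent.H718R2.K1

/-!
# Limits of `C²` maps with bounded second derivatives; graph transform for bounded forward orbits
-/


open scoped Manifold ContDiff Topology
open Set Filter
open Pool.Agent.H718R2 Pool.Agent.H718R2.G Pool.Agent.H718R2.G.K1aux

namespace Pool.Agent.Y640.CL

section lim
variable {E X : Type*} [NormedAddCommGroup E] [NormedSpace ℝ E]
  [NormedAddCommGroup X] [NormedSpace ℝ X]

/-- the derivative of a `C²` map with bounded second derivative is Lipschitz -/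
theorem fderiv_lip {v : E → X} (hv : ContDiff ℝ 2 v) {B : ℝ}
    (h2 : ∀ p, ‖iteratedFDeriv ℝ 2 v p‖ ≤ B) (p q : E) :
    ‖fderiv ℝ v p - fderiv ℝ v q‖ ≤ B * ‖p - q‖ := by
  have hd : Differentiable ℝ (fderiv ℝ v) :=
    (hv.fderiv_right (m := 1) (by norm_num)).differentiable (by norm_num)
  refine Convex.norm_image_sub_le_of_norm_fderiv_le (𝕜 := ℝ) (s := univ) (fun z _ => hd z) ?_
    convex_univ (mem_univ _) (mem_univ _)
  intro z _
  have := h2 z
  rwa [← norm_iteratedFDeriv_fderiv, norm_iteratedFDeriv_one] at this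

/-- Landau's inequality -/
theorem landau {w : E → X} (hw : Differentiable ℝ w) {B a : ℝ} (ha : 0 ≤ a)
    (h2 : ∀ p q, ‖fderiv ℝ w p - fderiv ℝ w q‖ ≤ B * ‖p - q‖) (h0 : ∀ p, ‖w p‖ ≤ a)
    (hB : 0 ≤ B) {s : ℝ} (hs : 0 < s) (p : E) : ‖fderiv ℝ w p‖ ≤ B * s + 2 * a / s := by
  apply ContinuousLinearMap.opNorm_le_bound _ (by positivity)
  intro e
  rcases eq_or_ne e 0 with rfl | he
  · simp
  have he' : 0 < ‖e‖ := norm_pos_iff.2 he
  set t : ℝ := s / ‖e‖ with ht
  have ht0 : 0 < t := by positivity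
  have hte : ‖t • e‖ = s := by
    rw [norm_smul, Real.norm_of_nonneg ht0.le, ht]
    field_simp
  set φ : E → X := fun y => w y - fderiv ℝ w p y with hφ
  have hφd : ∀ y, HasFDerivAt φ (fderiv ℝ w y - fderiv ℝ w p) y := fun y =>
    (hw y).hasFDerivAt.sub (fderiv ℝ w p).hasFDerivAt
  have h1 : ‖φ (p + t • e) - φ p‖ ≤ (B * s) * ‖(p + t • e) - p‖ := by
    refine Convex.norm_image_sub_le_of_norm_hasFDerivWithin_le (𝕜 := ℝ) (s := Metric.closedBall p s)
      (f' := fun y => fderiv ℝ w y - fderiv ℝ w p)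
      (fun y _ => (hφd y).hasFDerivWithinAt) ?_ (convex_closedBall _ _)
      (Metric.mem_closedBall_self hs.le) ?_
    · intro y hy
      refine (h2 y p).trans ?_
      rw [Metric.mem_closedBall, dist_eq_norm] at hy
      exact mul_le_mul_of_nonneg_left hy hB
    · rw [Metric.mem_closedBall, dist_eq_norm, add_sub_cancel_left, hte]
  rw [add_sub_cancel_left, hte] at h1
  have e1 : φ (p + t • e) - φ p = w (p + t • e) - w p - t • fderiv ℝ w p e := by
    simp only [hφ, map_add, map_smul]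
    abel
  rw [e1] at h1
  have h3 : ‖t • fderiv ℝ w p e‖ ≤ B * s * s + 2 * a := by
    have : t • fderiv ℝ w p e = (w (p + t • e) - w p) -
        (w (p + t • e) - w p - t • fderiv ℝ w p e) := by abel
    rw [this]
    refine (norm_sub_le _ _).trans ?_
    have := norm_sub_le (w (p + t • e)) (w p)
    have := h0 (p + t • e)
    have := h0 p
    linarith
  rw [norm_smul, Real.norm_of_nonneg ht0.le] at h3
  have h4 : ‖fderiv ℝ w p e‖ ≤ (B * s * s + 2 * a) / t := by
    rw [le_div_iff₀ ht0, mul_comm]; exact h3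
  refine h4.trans (le_of_eq ?_)
  rw [ht]
  field_simp

/-- limits of `C²` maps with bounded second derivatives are differentiable -/
theorem lim_C1 [CompleteSpace X] (v : ℕ → E → X) (hv : ∀ N, ContDiff ℝ 2 (v N)) {A : ℝ} (hA : 0 ≤ A)
    (h0 : ∀ N p, ‖v (N + 1) p - v N p‖ ≤ A * (1 / 2) ^ N)
    (h2 : ∀ N p, ‖iteratedFDeriv ℝ 2 (v N) p‖ ≤ 1) :
    ∃ (w : E → X) (w' : E → E →L[ℝ] X), (∀ p, Tendsto (fun N => v N p) atTop (𝓝 (w p))) ∧
      (∀ p, HasFDerivAt w (w' p) p) ∧
      ∀ p, Tendsto (fun N => fderiv ℝ (v N) p) atTop (𝓝 (w' p)) := by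
  have hd : ∀ N, Differentiable ℝ (v N) := fun N => (hv N).differentiable (by norm_num)
  have h1 : ∀ N p, ‖fderiv ℝ (v (N + 1)) p - fderiv ℝ (v N) p‖ ≤ (2 * (1 + A)) * (3 / 4) ^ N := by
    intro N p
    have hdw : Differentiable ℝ (fun p => v (N + 1) p - v N p) := (hd _).sub (hd _)
    have hfd : ∀ p, fderiv ℝ (fun p => v (N + 1) p - v N p) p =
        fderiv ℝ (v (N + 1)) p - fderiv ℝ (v N) p := fun p => by
      exact fderiv_fun_sub (hd _ p) (hd _ p)
    have hL : ∀ p q, ‖fderiv ℝ (fun p => v (N + 1) p - v N p) p -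
        fderiv ℝ (fun p => v (N + 1) p - v N p) q‖ ≤ 2 * ‖p - q‖ := by
      intro p q
      rw [hfd, hfd]
      have a1 := fderiv_lip (hv (N + 1)) (h2 (N + 1)) p q
      have a2 := fderiv_lip (hv N) (h2 N) p q
      have e : (fderiv ℝ (v (N + 1)) p - fderiv ℝ (v N) p) - (fderiv ℝ (v (N + 1)) q - fderiv ℝ (v N) q) =
        (fderiv ℝ (v (N + 1)) p - fderiv ℝ (v (N + 1)) q) - (fderiv ℝ (v N) p - fderiv ℝ (v N) q) := by
        abel
      rw [e]
      refine (norm_sub_le _ _).trans ?_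
      linarith
    have h3 := landau hdw (a := A * (1 / 2) ^ N) (by positivity) hL (h0 N) (by norm_num)
      (s := (3 / 4) ^ N) (by positivity) p
    rw [hfd] at h3
    refine h3.trans ?_
    have e1 : 2 * (A * (1 / 2) ^ N) / (3 / 4) ^ N = 2 * A * (2 / 3) ^ N := by
      have : ((1:ℝ) / 2) ^ N = (2 / 3) ^ N * (3 / 4) ^ N := by
        rw [← mul_pow]; norm_num
      rw [this]
      field_simp
    rw [e1]
    have e2 : ((2:ℝ) / 3) ^ N ≤ (3 / 4) ^ N := pow_le_pow_left₀ (by norm_num) (by norm_num) N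
    have e3 : 2 * A * ((2:ℝ) / 3) ^ N ≤ 2 * A * (3 / 4) ^ N :=
      mul_le_mul_of_nonneg_left e2 (by positivity)
    calc 2 * (3 / 4 : ℝ) ^ N + 2 * A * (2 / 3) ^ N ≤ 2 * (3 / 4) ^ N + 2 * A * (3 / 4) ^ N := by linarith
      _ = _ := by ring
  have hdist1 : ∀ p, ∀ N, dist (fderiv ℝ (v N) p) (fderiv ℝ (v (N + 1)) p) ≤
      (2 * (1 + A)) * (3 / 4) ^ N := by
    intro p N
    rw [dist_comm, dist_eq_norm]; exact h1 N p
  have hdist0 : ∀ p, ∀ N, dist (v N p) (v (N + 1) p) ≤ A * (1 / 2) ^ N := by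
    intro p N
    rw [dist_comm, dist_eq_norm]; exact h0 N p
  have hc0 : ∀ p, ∃ w, Tendsto (fun N => v N p) atTop (𝓝 w) := fun p =>
    cauchySeq_tendsto_of_complete (cauchySeq_of_le_geometric _ _ (by norm_num) (hdist0 p))
  have hc1 : ∀ p, ∃ w, Tendsto (fun N => fderiv ℝ (v N) p) atTop (𝓝 w) := fun p =>
    cauchySeq_tendsto_of_complete (cauchySeq_of_le_geometric _ _ (by norm_num) (hdist1 p))
  choose w hw using hc0
  choose w' hw' using hc1
  refine ⟨w, w', hw, ?_, hw'⟩
  apply hasFDerivAt_of_tendstoUniformly (l := atTop) (f := v) (f' := fun N => fderiv ℝ (v N))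
  · rw [Metric.tendstoUniformly_iff]
    intro ε hε
    have ht : Tendsto (fun N : ℕ => (2 * (1 + A)) * (3 / 4 : ℝ) ^ N / (1 - 3 / 4)) atTop
        (𝓝 ((2 * (1 + A)) * 0 / (1 - 3 / 4))) :=
      ((tendsto_pow_atTop_nhds_zero_of_lt_one (by norm_num) (by norm_num)).const_mul _).div_const _
    rw [mul_zero, zero_div] at ht
    filter_upwards [ht.eventually (gt_mem_nhds hε)] with N hN p
    rw [dist_comm]
    exact (dist_le_of_le_geometric_of_tendsto _ _ (by norm_num) (hdist1 p) (hw' p) N).trans_lt hN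
  · exact fun N p => (hd N p).hasFDerivAt
  · exact hw

end lim

/-- Graph transform: bounded forward orbits of maps `C²`-close to `(p, w) ↦ (f p, b(p)⁻¹ w)` are
orbits, in the first coordinate, of a map `C^{1,1}`-close to `f`. -/
theorem stabilise_lim {E W : Type*} [NormedAddCommGroup E] [NormedSpace ℝ E] [FiniteDimensional ℝ E]
    [NormedAddCommGroup W] [NormedSpace ℝ W] [FiniteDimensional ℝ W] (f : E → E)
    (hf : ContDiff ℝ ∞ f) (ε : E → ℝ) (hε : Continuous ε) (hε' : ∀ p, 0 < ε p) :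
    ∃ (b : E → ℝ) (ε' : E → ℝ), ContDiff ℝ ∞ b ∧ (∀ p, 0 < b p) ∧ Continuous ε' ∧ (∀ p, 0 < ε' p) ∧
      ∀ g : E × W → E × W, ContDiff ℝ 2 g →
        (∀ (z : E × W) (i : ℕ), i ≤ 2 → ‖iteratedFDeriv ℝ i g z -
          iteratedFDeriv ℝ i (fun z : E × W => (f z.1, (b z.1)⁻¹ • z.2)) z‖ < ε' z.1) →
        ∃ (v : ℕ → E → E) (w : E → E) (w' : E → E →L[ℝ] E), (∀ N, ContDiff ℝ 2 (v N)) ∧
          (∀ N p i, i ≤ 2 → ‖iteratedFDeriv ℝ i (v N) p‖ ≤ ε p) ∧
          (∀ p, Tendsto (fun N => v N p) atTop (𝓝 (w p))) ∧ (∀ p, HasFDerivAt w (w' p) p) ∧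
          (∀ p, Tendsto (fun N => fderiv ℝ (v N) p) atTop (𝓝 (w' p))) ∧
          ∀ z : E × W, (∃ Δ : ℝ, ∀ j, ‖(g^[j] z).2‖ ≤ Δ) →
            ∀ j, (g^[j + 1] z).1 = f (g^[j] z).1 + w (g^[j] z).1 := by
  classical
  have hcE : CompleteSpace E := FiniteDimensional.complete ℝ E
  set A : E → ℝ := fun p => 2 + ‖iteratedFDeriv ℝ 1 f p‖ + ‖iteratedFDeriv ℝ 2 f p‖ with hAdef
  have hAc : Continuous A := by
    have h1 := hf.continuous_iteratedFDeriv (m := 1) (nat_le 1)
    have h2 := hf.continuous_iteratedFDeriv (m := 2) (nat_le 2)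
    exact (continuous_const.add h1.norm).add h2.norm
  have hA2 : ∀ p, 2 ≤ A p := fun p => by
    simp only [hAdef]
    have := norm_nonneg (iteratedFDeriv ℝ 1 f p)
    have := norm_nonneg (iteratedFDeriv ℝ 2 f p)
    linarith
  have hA1 : ∀ p, 1 ≤ A p := fun p => by linarith [hA2 p]
  have hA : ∀ p, ∀ i : ℕ, 1 ≤ i → i ≤ 2 → ‖iteratedFDeriv ℝ i f p‖ + 1 ≤ A p := by
    intro p i hi1 hi
    simp only [hAdef]
    have := norm_nonneg (iteratedFDeriv ℝ 1 f p)
    have := norm_nonneg (iteratedFDeriv ℝ 2 f p)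
    interval_cases i <;> linarith
  obtain ⟨b, hb, hb0, hbb⟩ := exists_small (fun p => 1 / (16 * A p ^ 2))
    (continuous_const.div (continuous_const.mul (hAc.pow 2)) (fun p => by
      have := hA2 p
      positivity)) (fun p => by
      have := hA2 p
      positivity)
  have hf2 : ContDiff ℝ 2 f := hf.of_le two_le
  have hb2 : ContDiff ℝ 2 b := hb.of_le two_le
  have hb4 : ∀ p, b p ≤ 1 / 4 := by
    intro p
    have h1 := hbb p 0 (by norm_num)
    rw [norm_iteratedFDeriv_zero, Real.norm_of_nonneg (hb0 p).le] at h1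
    refine h1.trans ?_
    rw [div_le_div_iff₀ (by have := hA2 p; positivity) (by norm_num)]
    nlinarith [hA2 p]
  refine ⟨b, fun p => min (ε p) 1 / 16, hb, hb0, (hε.min continuous_const).div_const _,
    fun p => by have := hε' p; positivity, ?_⟩
  intro g hg hgb
  -- the fibre map
  set F : E × W → E × W := fun z => (f z.1, (b z.1)⁻¹ • z.2) with hFdef
  have hF : ContDiff ℝ 2 F := by
    refine (hf2.comp contDiff_fst).prodMk (ContDiff.smul ?_ contDiff_snd)
    exact (hb2.comp contDiff_fst).inv (fun z => (hb0 z.1).ne')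
  set u : E × W → E × W := fun z => g z - F z with hudef
  have hu : ContDiff ℝ 2 u := hg.sub hF
  have hue : ∀ z : E × W, ∀ i : ℕ, i ≤ 2 → ‖iteratedFDeriv ℝ i u z‖ ≤ min (ε z.1) 1 / 16 := by
    intro z i hi
    have hi' : (i : WithTop ℕ∞) ≤ 2 := by exact_mod_cast hi
    rw [hudef, fun_iteratedFDeriv_sub_apply (hg.contDiffAt.of_le hi') (hF.contDiffAt.of_le hi')]
    exact (hgb z i hi).le
  have hu8 : ∀ z : E × W, ∀ i : ℕ, i ≤ 2 → ‖iteratedFDeriv ℝ i u z‖ ≤ 1 / 8 := by
    intro z i hi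
    refine (hue z i hi).trans ?_
    have := min_le_right (ε z.1) 1
    linarith
  have hspec := hs_spec hf2 hb2 hu hA1 hA hbb hu8
  have hul : ∀ (p : E) (a c : W), ‖u (p, a) - u (p, c)‖ ≤ 1 / 8 * ‖a - c‖ := by
    intro p a c
    refine (lip_of_bd hu (fun z => hu8 z 1 (by norm_num)) _ _).trans ?_
    have : ‖(p, a) - (p, c)‖ = ‖a - c‖ := by
      rw [Prod.mk_sub_mk, sub_self, Prod.norm_mk, norm_zero, max_eq_right (norm_nonneg _)]
    rw [this]
  -- the graph transform contracts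
  have hcau : ∀ N p, ‖hs f b u (N + 1) p - hs f b u N p‖ ≤ (1 / 2) ^ N := by
    intro N
    induction N with
    | zero =>
      intro p
      have e0 : hs f b u 0 p = 0 := rfl
      rw [e0, sub_zero, pow_zero]
      have := (hspec 1).2 p 0 (by norm_num)
      rwa [norm_iteratedFDeriv_zero] at this
    | succ N ih =>
      intro p
      set h := hs f b u (N + 1) with hh
      set k := hs f b u N with hk
      have e1 : hs f b u (N + 1 + 1) p = gt f b u h p := rfl
      have e2 : h p = gt f b u k p := rfl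
      have key : hs f b u (N + 1 + 1) p - h p = b p •
          ((h (f p + (u (p, h p)).1) - k (f p + (u (p, h p)).1)) +
            (k (f p + (u (p, h p)).1) - k (f p + (u (p, k p)).1)) -
            ((u (p, h p)).2 - (u (p, k p)).2)) := by
        rw [e1]
        conv_lhs => rw [e2]
        unfold gt
        rw [← smul_sub]
        congr 1
        abel
      rw [key, norm_smul, Real.norm_of_nonneg (hb0 p).le]
      have a0 := hul p (h p) (k p)
      have aih := ih p
      have a1 : ‖(u (p, h p)).1 - (u (p, k p)).1‖ ≤ 1 / 8 * ‖h p - k p‖ := (norm_fst_le _).trans a0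
      have a2 : ‖(u (p, h p)).2 - (u (p, k p)).2‖ ≤ 1 / 8 * ‖h p - k p‖ := (norm_snd_le _).trans a0
      have a3 : ‖k (f p + (u (p, h p)).1) - k (f p + (u (p, k p)).1)‖ ≤ 1 / 8 * ‖h p - k p‖ := by
        refine (lip_of_bd (hspec N).1 (fun q => (hspec N).2 q 1 (by norm_num)) _ _).trans ?_
        rw [add_sub_add_left_eq_sub, one_mul]
        exact a1
      have a4 := ih (f p + (u (p, h p)).1)
      have hD0 : 0 < ((1:ℝ) / 2) ^ N := by positivity
      have a5 : ‖(h (f p + (u (p, h p)).1) - k (f p + (u (p, h p)).1)) +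
            (k (f p + (u (p, h p)).1) - k (f p + (u (p, k p)).1)) -
            ((u (p, h p)).2 - (u (p, k p)).2)‖ ≤ 2 * (1 / 2) ^ N := by
        refine (norm_sub_le _ _).trans ?_
        have := norm_add_le (h (f p + (u (p, h p)).1) - k (f p + (u (p, h p)).1))
          (k (f p + (u (p, h p)).1) - k (f p + (u (p, k p)).1))
        linarith
      calc b p * _ ≤ 1 / 4 * (2 * (1 / 2) ^ N) := by
            have := hb4 p
            have := (hb0 p).le
            gcongr
        _ = (1 / 2) ^ (N + 1) := by ring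
  set v : ℕ → E → E := fun N p => (u (p, hs f b u N p)).1 with hvdef
  have hug : ∀ N, ContDiff ℝ 2 (fun p => u (p, hs f b u N p)) := fun N =>
    hu.comp (contDiff_fun_id.prodMk (hspec N).1)
  have hvc : ∀ N, ContDiff ℝ 2 (v N) := fun N => (hug N).fst
  have hvb : ∀ N p, ∀ i : ℕ, i ≤ 2 → ‖iteratedFDeriv ℝ i (v N) p‖ ≤ min (ε p) 1 / 2 := by
    intro N p i hi
    have h1 := comp_graph_bd hu (hspec N).1 (p := p) (fun i hi => hue (p, hs f b u N p) i hi)
      (fun i hi => ((hspec N).2 p i hi).trans (by norm_num)) i hi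
    refine (fst_bd (hug N) i hi h1).trans ?_
    simp only
    linarith
  obtain ⟨w, w', hw, hwd, hww⟩ := lim_C1 v hvc (A := 1 / 8) (by norm_num) (by
      intro N p
      have h1 : ‖v (N + 1) p - v N p‖ ≤ ‖u (p, hs f b u (N + 1) p) - u (p, hs f b u N p)‖ :=
        norm_fst_le (u (p, hs f b u (N + 1) p) - u (p, hs f b u N p))
      refine h1.trans ((hul _ _ _).trans ?_)
      exact mul_le_mul_of_nonneg_left (hcau N p) (by norm_num)) (by
      intro N p
      refine (hvb N p 2 le_rfl).trans ?_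
      have := min_le_right (ε p) 1
      linarith)
  refine ⟨v, w, w', hvc, ?_, hw, hwd, hww, ?_⟩
  · intro N p i hi
    refine (hvb N p i hi).trans ?_
    have := min_le_left (ε p) 1
    have := hε' p
    linarith
  · rintro z ⟨Δ, hΔ⟩ j
    set Z : ℕ → E × W := fun j => g^[j] z with hZdef
    have hZs : ∀ j, Z (j + 1) = g (Z j) := fun j => Function.iterate_succ_apply' g j z
    have e1 : ∀ j, (Z (j + 1)).1 = f (Z j).1 + (u ((Z j).1, (Z j).2)).1 := by
      intro j
      rw [hZs]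
      simp [hudef, hFdef]
    have e2 : ∀ j, (Z j).2 = b (Z j).1 • ((Z (j + 1)).2 - (u ((Z j).1, (Z j).2)).2) := by
      intro j
      rw [hZs]
      simp only [hudef, hFdef, Prod.snd_sub, sub_sub_cancel]
      rw [smul_smul, mul_inv_cancel₀ (hb0 _).ne', one_smul]
    have hcon : ∀ N : ℕ, ∀ j, ‖(Z j).2 - hs f b u N (Z j).1‖ ≤ Δ * (1 / 2) ^ N := by
      intro N
      induction N with
      | zero =>
        intro j
        have : hs f b u 0 (Z j).1 = 0 := rfl
        rw [this, sub_zero, pow_zero, mul_one]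
        exact hΔ j
      | succ N ih =>
        intro j
        have := contract hu (fun z => hu8 z 1 (by norm_num)) (hspec N).1
          (fun q => (hspec N).2 q 1 (by norm_num)) (e1 j) (e2 j) (hb0 _).le (hb4 _) (ih j) (ih (j + 1))
        refine this.trans (le_of_eq ?_)
        ring
    have hlim : Tendsto (fun N => hs f b u N (Z j).1) atTop (𝓝 (Z j).2) := by
      rw [tendsto_iff_norm_sub_tendsto_zero]
      have ht : Tendsto (fun N : ℕ => Δ * (1 / 2 : ℝ) ^ N) atTop (𝓝 (Δ * 0)) :=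
        (tendsto_pow_atTop_nhds_zero_of_lt_one (by norm_num) (by norm_num)).const_mul Δ
      rw [mul_zero] at ht
      refine squeeze_zero (fun _ => norm_nonneg _) (fun N => ?_) ht
      rw [norm_sub_rev]
      exact hcon N j
    have hlim2 : Tendsto (fun N => v N (Z j).1) atTop (𝓝 (u ((Z j).1, (Z j).2)).1) := by
      have hc : Continuous fun y : W => (u ((Z j).1, y)).1 :=
        (hu.continuous.comp (by fun_prop)).fst
      exact (hc.tendsto _).comp hlim
    have hww' := tendsto_nhds_unique (hw (Z j).1) hlim2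
    change (Z (j + 1)).1 = f (Z j).1 + w (Z j).1
    rw [hww']
    exact e1 j

end Pool.Agent.Y640.CL
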